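import Pool.Agent.Lib.MP_b26fee_pr.Both

namespace Pool.Agent.Variants.MP_b26fee_pr.RandomSetsOptimal

open Pool.Agent.Lib.MP_b26fee_pr Filter Topology

theorem result :
    ∃ (N : ℕ → ℕ) (f : ∀ n, (Fin (N n) → Bool) → Bool),
      Tendsto N atTop atTop ∧ (∀ n, Monotone (f n)) ∧ (∀ n, 1 / 4 ≤ var (sgn (f n))) ∧
      (∀ ε ∈ Set.Ioo (0 : ℝ) 1, Tendsto (fun n => noiseCov (sgn (f n)) ε) atTop (𝓝 0)) ∧
      ∀ δ ∈ Set.Ioo (0 : ℝ) 1, (∀ n, 0 < bern δ (clue (sgn (f n)))) ∧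
        ∀ η : ℝ, 0 < η → ∀ᶠ n in atTop, ∀ U : Finset (Fin (N n)), (U.card : ℝ) ≤ δ * N n →
          clue (sgn (f n)) U ≤ (1 + η) * bern δ (clue (sgn (f n))) :=
  both_readings.2

end Pool.Agent.Variants.MP_b26fee_pr.RandomSetsOptimal
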